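import Pool.Agent.W414.AT.Free
set_option autoImplicit false

/-!
The free alternative ring on at least six generators has an element of additive order three, and
the free alternative algebra over a commutative ring `Φ` is not a free (not even a projective)
`Φ`-module unless the ideal `3Φ` is generated by an idempotent.
-/

namespace Pool.Agent.Results.MP_2692c1_al.ThreeTorsion
open Pool.Agent.W414.AT

/-- The smallest two-sided ideal (a `Φ`-submodule absorbing left and right multiplications) of the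
free nonassociative `Φ`-algebra on `X` that contains all associators `(a,a,b)` and `(b,a,a)`. -/
noncomputable def altIdeal (Φ : Type) [CommRing Φ] (X : Type) : Submodule Φ (FreeNonUnitalNonAssocAlgebra Φ X) :=
  sInf {T | (∀ a t : FreeNonUnitalNonAssocAlgebra Φ X, t ∈ T → a * t ∈ T ∧ t * a ∈ T) ∧
    ∀ a b : FreeNonUnitalNonAssocAlgebra Φ X,
      (a * a) * b - a * (a * b) ∈ T ∧ (b * a) * a - b * (a * a) ∈ T}

/-- The `Φ`-module underlying the free alternative `Φ`-algebra on `X`. -/
abbrev Alt (Φ : Type) [CommRing Φ] (X : Type) : Type :=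
  FreeNonUnitalNonAssocAlgebra Φ X ⧸ altIdeal Φ X

theorem torsion {X : Type} (ι : Fin 6 ↪ X) : ∃ f : Alt ℤ X, f ≠ 0 ∧ (3 : ℤ) • f = 0 := by
  obtain ⟨g, hg⟩ := exists_functional ι ℤ
  refine ⟨((8 : ℤ) • elt ℤ ι : Pool.Agent.Helper928.Nuc.Free.FreeAlt ℤ X), ?_, ?_⟩
  · intro h
    have h1 : g ((8 : ℤ) • elt ℤ ι) = 0 := by
      rw [show ((8 : ℤ) • elt ℤ ι : Pool.Agent.Helper928.Nuc.Free.FreeAlt ℤ X) = 0 from h, map_zero]
    rw [map_zsmul, hg] at h1
    have h2 : (Ideal.Quotient.mk (Ideal.span {(3 : ℤ)})) 8 = 0 := by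
      rw [zsmul_one] at h1
      rw [← h1]; exact map_intCast _ 8
    rw [Ideal.Quotient.eq_zero_iff_mem, Ideal.mem_span_singleton] at h2
    omega
  · have h := elt_torsion (Φ := ℤ) ι
    have h1 : (3 : ℤ) • ((8 : ℤ) • elt ℤ ι : Pool.Agent.Helper928.Nuc.Free.FreeAlt ℤ X) = 0 := by
      rw [smul_smul]; exact h
    exact h1

theorem projective {Φ : Type} [CommRing Φ] {X : Type} (ι : Fin 6 ↪ X) (hP : Module.Projective Φ (Alt Φ X)) :
    ∃ e : Φ, e * e = e ∧ Ideal.span {(3 : Φ)} = Ideal.span {e} := by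
  obtain ⟨g, hg⟩ := exists_functional ι Φ
  have hP' : Module.Projective Φ (Pool.Agent.Helper928.Nuc.Free.FreeAlt Φ X) := hP
  obtain ⟨s, hs⟩ := hP'.out
  set t := elt Φ ι with ht
  have h24 : (24 : Φ) • t = 0 := by
    have h := elt_torsion (Φ := Φ) ι
    have h2 : (24 : ℤ) • t = ((24 : ℤ) : Φ) • t := (Int.cast_smul_eq_zsmul Φ 24 t).symm
    rw [← ht, h2] at h
    push_cast at h
    exact h
  have hc : ∀ a, (24 : Φ) * (s t) a = 0 := by
    intro a
    have h : s ((24 : Φ) • t) = 0 := by rw [h24, map_zero]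
    rw [map_smul] at h
    have h2 := DFunLike.congr_fun h a
    simpa using h2
  have hsum : (s t).sum (fun a c => c • g a) = 1 := by
    have h := hs t
    rw [Finsupp.linearCombination_apply] at h
    have h2 := congrArg g h
    rw [hg, map_finsuppSum] at h2
    simpa using h2
  choose b hb using fun a => Ideal.Quotient.mk_surjective (g a)
  let r : Φ := (s t).sum (fun a c => c * b a)
  have hr24 : 24 * r = 0 := by
    show 24 * (s t).sum (fun a c => c * b a) = 0
    rw [Finsupp.sum, Finset.mul_sum]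
    refine Finset.sum_eq_zero fun a _ => ?_
    rw [← mul_assoc, hc, zero_mul]
  have hr : (Ideal.Quotient.mk (Ideal.span {(3 : Φ)})) r = 1 := by
    rw [← hsum]
    show (Ideal.Quotient.mk (Ideal.span {(3 : Φ)})) ((s t).sum (fun a c => c * b a)) = _
    rw [map_finsuppSum]
    refine Finsupp.sum_congr fun a _ => ?_
    rw [map_mul, hb, Algebra.smul_def]; rfl
  have hr1 : r - 1 ∈ Ideal.span {(3 : Φ)} := by
    rw [← Ideal.Quotient.eq, hr, map_one]
  obtain ⟨a, ha⟩ := Ideal.mem_span_singleton.mp hr1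
  have e3 : 3 * (1 - 16 * r) = 3 := by linear_combination (-2) * hr24
  have ee : (1 - 16 * r) = 3 * (-5 - 16 * a) := by linear_combination (-16) * ha
  refine ⟨1 - 16 * r, ?_, ?_⟩
  · have : (1 - 16 * r) * (1 - 16 * r) = (-5 - 16 * a) * (3 * (1 - 16 * r)) := by
      linear_combination (1 - 16 * r) * ee
    rw [this, e3, ee]; ring
  · apply le_antisymm
    · rw [Ideal.span_singleton_le_span_singleton]
      exact ⟨3, by rw [mul_comm]; exact e3.symm⟩
    · rw [Ideal.span_singleton_le_span_singleton]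
      exact ⟨_, ee⟩

/-- For every set `X` with at least six elements: the free alternative ring on `X` contains an
element of additive order three, so that it is not a free `ℤ`-module; and if the free alternative
`Φ`-algebra on `X` is a projective `Φ`-module then the ideal `3Φ` is generated by an idempotent. -/
theorem result (X : Type) (hX : Nonempty (Fin 6 ↪ X)) :
    (∃ f : Alt ℤ X, f ≠ 0 ∧ (3 : ℤ) • f = 0) ∧ ¬ Module.Free ℤ (Alt ℤ X) ∧
    ∀ (Φ : Type) [CommRing Φ], Module.Projective Φ (Alt Φ X) →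
      ∃ e : Φ, e * e = e ∧ Ideal.span {(3 : Φ)} = Ideal.span {e} := by
  obtain ⟨ι⟩ := hX
  refine ⟨torsion ι, ?_, fun Φ _ hP => projective ι hP⟩
  intro hF
  obtain ⟨f, hf, h3⟩ := torsion ι
  have : Module.IsTorsionFree ℤ (Alt ℤ X) := inferInstance
  exact hf ((smul_eq_zero.mp h3).resolve_left (by norm_num))

end Pool.Agent.Results.MP_2692c1_al.ThreeTorsion
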